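import Pool.Agent.W646.PN.Final

/-!
# Range of the polynomial numerical indices of real Banach spaces

For every `k ≥ 2` the set `R_k` of all values of the polynomial numerical index of order `k` on
nonzero real Banach spaces is the whole interval `[0, 1]`.
-/

set_option autoImplicit false

namespace Pool.Agent.Results.MP_046d9d_an.RealRange

/-- The norm of the `k`-homogeneous polynomial `x ↦ A (x, …, x)`: supremum over the unit ball. -/
noncomputable def polyNorm {X : Type} [NormedAddCommGroup X] [NormedSpace ℝ X] {k : ℕ}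
    (A : ContinuousMultilinearMap ℝ (fun _ : Fin k => X) X) : ℝ :=
  sSup {r : ℝ | ∃ x : X, ‖x‖ ≤ 1 ∧ r = ‖A (fun _ => x)‖}

/-- The numerical radius of the `k`-homogeneous polynomial `x ↦ A (x, …, x)`. -/
noncomputable def polyRadius {X : Type} [NormedAddCommGroup X] [NormedSpace ℝ X] {k : ℕ}
    (A : ContinuousMultilinearMap ℝ (fun _ : Fin k => X) X) : ℝ :=
  sSup {r : ℝ | ∃ (x : X) (f : X →L[ℝ] ℝ), ‖x‖ = 1 ∧ ‖f‖ = 1 ∧ f x = 1 ∧
    r = ‖f (A (fun _ => x))‖}

/-- The polynomial numerical index of order `k` of the real normed space `X`. -/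
noncomputable def polyIndex (k : ℕ) (X : Type) [NormedAddCommGroup X] [NormedSpace ℝ X] : ℝ :=
  sInf {r : ℝ | ∃ A : ContinuousMultilinearMap ℝ (fun _ : Fin k => X) X,
    polyNorm A = 1 ∧ r = polyRadius A}

/-- The set of all values of the polynomial numerical index of order `k` on nonzero real
Banach spaces. -/
def realRange (k : ℕ) : Set ℝ :=
  {r : ℝ | ∃ (X : Type) (_ : NormedAddCommGroup X) (_ : NormedSpace ℝ X),
    CompleteSpace X ∧ Nontrivial X ∧ r = polyIndex k X}

/-- For every `k ≥ 2` the polynomial numerical indices of order `k` of the nonzero real Banach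
spaces are exactly the numbers of `[0, 1]`. -/
theorem result (k : ℕ) (hk : 2 ≤ k) : realRange k = Set.Icc 0 1 :=
  Pool.Agent.W646.PN.final k hk

end Pool.Agent.Results.MP_046d9d_an.RealRange
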